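import Pool.Agent.J6H51.PK.Petersen

set_option autoImplicit false
set_option linter.unusedSectionVars false

/-!
# Removing the bridges
-/

namespace Pool.Agent.J6H51.PK

open Finset
open Pool.Agent.H126R2.CDC (MGraph)

section

variable {V E : Type} [Fintype V] [DecidableEq V] [Fintype E] [DecidableEq E] (G : MGraph V E)

lemma cut_symmDiff (X Y : Finset V) : cut G (symmDiff X Y) = symmDiff (cut G X) (cut G Y) := by
  ext e
  obtain ⟨a, b, hab⟩ : ∃ a b, G.ends e = s(a, b) := by
    induction h : G.ends e using Sym2.ind with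
    | _ a b => exact ⟨a, b, rfl⟩
  rw [mem_symmDiff, mem_cut_iff G hab, mem_cut_iff G hab, mem_cut_iff G hab, mem_symmDiff,
    mem_symmDiff]
  tauto

/-- `e` is a bridge -/
def IsBridge (e : E) : Prop := ∃ X : Finset V, cut G X = {e}

open scoped Classical in
lemma bridge_of (e : E) (he : ¬ IsBridge G e) : ∀ (n : ℕ) (X : Finset V),
    ((cut G X).filter fun f => IsBridge G f).card = n →
    ((cut G X).filter fun f => ¬ IsBridge G f) ≠ {e} := by
  intro n
  induction n with
  | zero =>
    intro X h0 h1
    apply he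
    refine ⟨X, ?_⟩
    rw [← Finset.filter_union_filter_not_eq (fun f => IsBridge G f) (cut G X), h1,
      Finset.card_eq_zero.1 h0, Finset.empty_union]
  | succ n ih =>
    intro X hn h1
    obtain ⟨b, hb⟩ : ((cut G X).filter fun f => IsBridge G f).Nonempty := by
      rw [← Finset.card_pos]
      omega
    have hb' := mem_filter.1 hb
    obtain ⟨Z, hZ⟩ := hb'.2
    have hc : cut G (symmDiff X Z) = (cut G X).erase b := by
      rw [cut_symmDiff, hZ]
      ext f
      rw [mem_symmDiff, mem_singleton, mem_erase]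
      constructor
      · rintro (⟨h2, h3⟩ | ⟨h2, h3⟩)
        · exact ⟨h3, h2⟩
        · rw [h2] at h3
          exact absurd hb'.1 h3
      · rintro ⟨h2, h3⟩
        exact Or.inl ⟨h3, h2⟩
    refine ih (symmDiff X Z) ?_ ?_
    · rw [hc, Finset.filter_erase, Finset.card_erase_of_mem hb, hn]
      rfl
    · rw [hc, Finset.filter_erase, h1, Finset.erase_eq_of_notMem]
      rw [mem_singleton]
      intro h2
      rw [h2] at hb'
      exact he hb'.2

/-- `G` without its bridges -/
def del : MGraph V {e : E // ¬ IsBridge G e} := ⟨fun e => G.ends e.1⟩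

end

section

open scoped Classical in
lemma map_cut {V E : Type} [Fintype V] [DecidableEq V] [Fintype E] [DecidableEq E] (G : MGraph V E) (X : Finset V) :
    (cut (del G) X).map (Function.Embedding.subtype _) =
      (cut G X).filter fun f => ¬ IsBridge G f := by
  ext e
  rw [mem_map, mem_filter]
  constructor
  · rintro ⟨⟨e', he'⟩, h1, rfl⟩
    refine ⟨?_, he'⟩
    unfold cut at h1 ⊢
    rw [mem_filter] at h1 ⊢
    exact ⟨mem_univ _, h1.2⟩
  · rintro ⟨h1, h2⟩
    refine ⟨⟨e, h2⟩, ?_, rfl⟩
    unfold cut at h1 ⊢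
    rw [mem_filter] at h1 ⊢
    exact ⟨mem_univ _, h1.2⟩

open scoped Classical in
lemma bridgeless_del {V E : Type} [Fintype V] [DecidableEq V] [Fintype E] [DecidableEq E] (G : MGraph V E) :
    Bridgeless (del G) := by
  intro X h
  obtain ⟨e, he⟩ := Finset.card_eq_one.1 h
  have h1 := map_cut G X
  rw [he, map_singleton] at h1
  exact bridge_of G e.1 e.2 _ X rfl h1.symm

open scoped Classical in
lemma circuit_up {V E : Type} [Fintype V] [DecidableEq V] [Fintype E] [DecidableEq E] (G : MGraph V E)
    (C : Finset {e : E // ¬ IsBridge G e}) (hC : (del G).IsCircuit C) :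
    G.IsCircuit (C.map (Function.Embedding.subtype _)) := by
  obtain ⟨h1, h2, h3⟩ := hC
  refine ⟨h1.map, ?_, ?_⟩
  · intro v
    have e1 : G.deg (C.map (Function.Embedding.subtype _)) v = (del G).deg C v := by
      rw [MGraph.deg_eq_sum, MGraph.deg_eq_sum, Finset.sum_map]
      rfl
    rw [e1]
    exact h2 v
  · intro e he f hf
    rw [mem_map] at he hf
    obtain ⟨e', he', rfl⟩ := he
    obtain ⟨f', hf', rfl⟩ := hf
    have h4 := h3 e' he' f' hf'
    induction h4 with
    | refl => exact Relation.ReflTransGen.refl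
    | tail h5 h6 ih =>
      exact Relation.ReflTransGen.tail (ih (by
        rcases Relation.ReflTransGen.cases_tail h5 with h7 | ⟨c, -, h7⟩
        · rw [h7]
          exact he'
        · exact h7.1)) ⟨mem_map.2 ⟨_, h6.1, rfl⟩, h6.2⟩

open scoped Classical in
lemma hasP_up {V E : Type} [Fintype V] [DecidableEq V] [Fintype E] [DecidableEq E] (G : MGraph V E) (k : ℕ)
    (h : HasP k (del G)) : HasP k G := by
  intro w hk he ha
  have h0 : ∀ e, IsBridge G e → w e = 0 := by
    rintro e ⟨X, hX⟩
    have h1 := ha X e (by rw [hX]; exact mem_singleton_self e)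
    rw [hX, Finset.erase_singleton, Finset.sum_empty] at h1
    omega
  have hs : ∀ X, ∑ e ∈ cut (del G) X, w e.1 = ∑ e ∈ cut G X, w e := by
    intro X
    have h1 : ∑ e ∈ (cut (del G) X).map (Function.Embedding.subtype _), w e =
        ∑ e ∈ cut (del G) X, w e.1 := by
      rw [Finset.sum_map]
      rfl
    rw [← h1, map_cut, Finset.sum_filter]
    apply Finset.sum_congr rfl
    intro e _
    by_cases h2 : IsBridge G e
    · rw [if_neg (not_not.2 h2), h0 e h2]
    · rw [if_pos h2]
  obtain ⟨A, hA1, hA2⟩ := h (fun e => w e.1) (fun e => hk e.1)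
    (fun X => by rw [hs]; exact he X)
    (by
      rw [admissible_iff] at ha ⊢
      intro X e hecut
      rw [hs]
      apply ha X e.1
      have : e.1 ∈ (cut (del G) X).map (Function.Embedding.subtype _) :=
        mem_map.2 ⟨e, hecut, rfl⟩
      rw [map_cut] at this
      exact (mem_filter.1 this).1)
  refine ⟨A.map fun C => C.map (Function.Embedding.subtype _), ?_, ?_⟩
  · intro C hC
    obtain ⟨C', hC', rfl⟩ := Multiset.mem_map.1 hC
    exact circuit_up G C' (hA1 C' hC')
  · intro e
    rw [Multiset.countP_map, ← Multiset.countP_eq_card_filter]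
    by_cases h2 : IsBridge G e
    · rw [h0 e h2, Multiset.countP_eq_zero]
      intro C _ h3
      obtain ⟨e', _, h4⟩ := mem_map.1 h3
      exact e'.2 (by rw [← h4] at h2; exact h2)
    · have h9 : A.countP (fun C => (⟨e, h2⟩ : {e : E // ¬ IsBridge G e}) ∈ C) = w e := hA2 ⟨e, h2⟩
      rw [← h9]
      apply Multiset.countP_congr rfl
      intro C _
      rw [mem_map]
      apply propext
      constructor
      · rintro ⟨e', h3, rfl⟩
        exact h3
      · intro h3
        exact ⟨⟨e, h2⟩, h3, rfl⟩

lemma contains_up {V E U F : Type} [Fintype V] [DecidableEq V] [Fintype E] [DecidableEq E]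
    (G : MGraph V E) (H : MGraph U F)
    (h : ContainsSubdivision (del G) H) : ContainsSubdivision G H := by
  obtain ⟨β, len, x, p, h1, h2, h3, h4, h5, h6⟩ := h
  exact ⟨β, len, x, fun k i => (p k i).1, h1, h2, h3, h4, h5,
    fun k i k' i' hi hi' h => h6 k i k' i' hi hi' (Subtype.ext h)⟩

lemma hasP_one {V E : Type} [Fintype V] [DecidableEq V] [Fintype E] [DecidableEq E]
    (G : MGraph V E) (h : HasP 1 G) (k : ℕ) : HasP k G :=
  fun w _ he ha => h w (fun _ => one_dvd _) he ha

end

end Pool.Agent.J6H51.PK
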