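import Pool.Agent.H126R2.CDC.Defs

set_option autoImplicit false

/-!
# Faithful circuit covers of weighted graphs: definitions

Graphs are the finite graphs `MGraph V E` of `Pool/Agent/H126R2/CDC/Defs.lean`: every edge `e` has
an unordered pair `G.ends e` of end-vertices; parallel edges (and loops) are allowed, and
`G.IsCircuit C` says that the edge set `C` is a circuit (a connected 2-regular subgraph).
-/

namespace Pool.Agent.J6H51.PK

open Finset
open Pool.Agent.H126R2.CDC (MGraph)

section

variable {V E : Type} [Fintype V] [DecidableEq V] [Fintype E] [DecidableEq E]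

/-- The edge cut `δ(X)`: the set of the edges with exactly one end in `X`. -/
def cut (G : MGraph V E) (X : Finset V) : Finset E :=
  univ.filter fun e => ∃ a b, a ∈ X ∧ b ∉ X ∧ G.ends e = s(a, b)

/-- The weight `w` is admissible: `w(e) ≤ w(T - {e})` for every edge cut `T` and every edge `e` of
`T`. -/
def Admissible (G : MGraph V E) (w : E → ℕ) : Prop :=
  ∀ X : Finset V, ∀ e ∈ cut G X, w e ≤ ∑ f ∈ (cut G X).erase e, w f

/-- The weight `w` is eulerian: `w(T)` is even for every edge cut `T`. -/
def EulerianWeight (G : MGraph V E) (w : E → ℕ) : Prop :=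
  ∀ X : Finset V, Even (∑ e ∈ cut G X, w e)

/-- `(G, w)` has a faithful circuit cover: there is a finite multiset of circuits of `G` such that
every edge `e` lies in exactly `w e` members of it. -/
def FaithfulCover (G : MGraph V E) (w : E → ℕ) : Prop :=
  ∃ F : Multiset (Finset E), (∀ C ∈ F, G.IsCircuit C) ∧ ∀ e, F.countP (fun C => e ∈ C) = w e

/-- The property `𝒫_k`: `(G, w)` has a faithful circuit cover for every admissible eulerian weight
`w` all of whose values are multiples of `k`. -/
def HasP (k : ℕ) (G : MGraph V E) : Prop :=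
  ∀ w : E → ℕ, (∀ e, k ∣ w e) → EulerianWeight G w → Admissible G w → FaithfulCover G w

/-- `G` is bridgeless: no edge cut consists of a single edge. -/
def Bridgeless (G : MGraph V E) : Prop := ∀ X : Finset V, (cut G X).card ≠ 1

end

/-- `G` contains a subdivision of `H`. There are an injective map `β` of the vertices of `H` to
those of `G` (the branch vertices) and for every edge `k` of `H` with ends `a`, `b` a path in `G`
from `β a` to `β b` with `len k ≥ 1` edges `p k 0, …, p k (len k - 1)` and consecutive vertices
`x k 0, …, x k (len k)`; the inner vertices of all these paths are not branch vertices and they are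
pairwise different, and the edges of all these paths are pairwise different. -/
def ContainsSubdivision {V E U F : Type} (G : MGraph V E) (H : MGraph U F) : Prop :=
  ∃ (β : U → V) (len : F → ℕ) (x : F → ℕ → V) (p : F → ℕ → E),
    Function.Injective β ∧
    (∀ k, 0 < len k ∧ ∃ a b, H.ends k = s(a, b) ∧ x k 0 = β a ∧ x k (len k) = β b) ∧
    (∀ k i, i < len k → G.ends (p k i) = s(x k i, x k (i + 1))) ∧
    (∀ k i, 0 < i → i < len k → ∀ u, x k i ≠ β u) ∧
    (∀ k i k' i', 0 < i → i < len k → 0 < i' → i' < len k' → x k i = x k' i' → k = k' ∧ i = i') ∧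
    (∀ k i k' i', i < len k → i' < len k' → p k i = p k' i' → k = k' ∧ i = i')

/-- The Petersen graph: the outer pentagon `0, 1, 2, 3, 4` (edges `0, …, 4`), the spokes
`i — i + 5` (edges `5, …, 9`) and the inner pentagram `5, 7, 9, 6, 8` (edges `10, …, 14`). -/
def petersen : MGraph (Fin 10) (Fin 15) where
  ends := ![s(0, 1), s(1, 2), s(2, 3), s(3, 4), s(4, 0), s(0, 5), s(1, 6), s(2, 7), s(3, 8),
    s(4, 9), s(5, 7), s(6, 8), s(7, 9), s(8, 5), s(9, 6)]

end Pool.Agent.J6H51.PK
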