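import Pool.Agent.J6H51.PK.Transfer

set_option autoImplicit false
set_option linter.unusedSectionVars false

/-!
# Odd multiples of the Petersen weight
-/

namespace Pool.Agent.J6H51.PK

open Finset
open Pool.Agent.H126R2.CDC (MGraph)

/-- ends of the edges of the Petersen graph -/
def src : Fin 15 → Fin 10 := ![0, 1, 2, 3, 4, 0, 1, 2, 3, 4, 5, 6, 7, 8, 9]
def tgt : Fin 15 → Fin 10 := ![1, 2, 3, 4, 0, 5, 6, 7, 8, 9, 7, 8, 9, 5, 6]

lemma ends_eq : ∀ e : Fin 15, petersen.ends e = s(src e, tgt e) := by decide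

/-- the weight: `1` on the two pentagons and `2` on the spokes -/
def pw (e : Fin 15) : ℕ := if 5 ≤ e ∧ e ≤ 9 then 2 else 1

def cwt (f : Fin 10 → Bool) : ℕ := ∑ e : Fin 15, if f (src e) != f (tgt e) then pw e else 0

lemma cwt_spec : ∀ f : Fin 10 → Bool, cwt f % 2 = 0 ∧
    ∀ e, (f (src e) != f (tgt e)) = true → 2 * pw e ≤ cwt f := by
  decide +kernel

lemma mem_cut_pet (X : Finset (Fin 10)) (e : Fin 15) :
    e ∈ cut petersen X ↔ ((decide (src e ∈ X)) != (decide (tgt e ∈ X))) = true := by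
  rw [mem_cut_iff petersen (ends_eq e)]
  by_cases h1 : src e ∈ X <;> by_cases h2 : tgt e ∈ X <;> simp [h1, h2]

lemma sum_cut_pet (c : ℕ) (X : Finset (Fin 10)) :
    ∑ e ∈ cut petersen X, c * pw e = c * cwt (fun v => decide (v ∈ X)) := by
  unfold cwt
  rw [← Finset.mul_sum, ← Finset.sum_filter]
  congr 1
  apply Finset.sum_congr _ (fun _ _ => rfl)
  ext e
  rw [mem_cut_pet]
  simp

lemma eulerian_pet (c : ℕ) : EulerianWeight petersen (fun e => c * pw e) := by
  intro X
  rw [sum_cut_pet]
  exact (Nat.even_iff.2 (cwt_spec _).1).mul_left c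

lemma admissible_pet (c : ℕ) : Admissible petersen (fun e => c * pw e) := by
  rw [admissible_iff]
  intro X e he
  rw [sum_cut_pet]
  have h := (cwt_spec (fun v => decide (v ∈ X))).2 e ((mem_cut_pet X e).1 he)
  calc 2 * (c * pw e) = c * (2 * pw e) := by ring
    _ ≤ _ := Nat.mul_le_mul_left c h

/-- outer edges, spokes, inner edges -/
def oE (i : Fin 5) : Fin 15 := ⟨i.val, by omega⟩
def sE (i : Fin 5) : Fin 15 := ⟨i.val + 5, by omega⟩
def tE (i : Fin 5) : Fin 15 := ⟨i.val + 10, by omega⟩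

lemma outer_inc : ∀ (i : Fin 5) (e : Fin 15),
    (if src e = ⟨i.val, by omega⟩ then 1 else 0) + (if tgt e = ⟨i.val, by omega⟩ then 1 else 0) =
    (if e = oE i then 1 else 0) + (if e = oE (i + 4) then 1 else 0) +
      (if e = sE i then 1 else 0) := by
  decide

lemma inner_inc : ∀ (i : Fin 5) (e : Fin 15),
    (if src e = ⟨i.val + 5, by omega⟩ then 1 else 0) +
      (if tgt e = ⟨i.val + 5, by omega⟩ then 1 else 0) =
    (if e = tE i then 1 else 0) + (if e = tE (i + 3) then 1 else 0) +
      (if e = sE i then 1 else 0) := by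
  decide

/-- indicator -/
def ind (C : Finset (Fin 15)) (e : Fin 15) : ℕ := if e ∈ C then 1 else 0

lemma ind_le (C : Finset (Fin 15)) (e : Fin 15) : ind C e ≤ 1 := by
  unfold ind
  split_ifs <;> omega

lemma deg_outer (C : Finset (Fin 15)) (i : Fin 5) :
    petersen.deg C ⟨i.val, by omega⟩ = ind C (oE i) + ind C (oE (i + 4)) + ind C (sE i) := by
  rw [MGraph.deg_eq_sum]
  rw [Finset.sum_congr rfl fun e _ => (ep_eq' petersen (ends_eq e) _).trans (outer_inc i e)]
  rw [Finset.sum_add_distrib, Finset.sum_add_distrib]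
  simp only [Finset.sum_ite_eq', ind]

lemma deg_inner (C : Finset (Fin 15)) (i : Fin 5) :
    petersen.deg C ⟨i.val + 5, by omega⟩ = ind C (tE i) + ind C (tE (i + 3)) + ind C (sE i) := by
  rw [MGraph.deg_eq_sum]
  rw [Finset.sum_congr rfl fun e _ => (ep_eq' petersen (ends_eq e) _).trans (inner_inc i e)]
  rw [Finset.sum_add_distrib, Finset.sum_add_distrib]
  simp only [Finset.sum_ite_eq', ind]

/-- number of members of a family containing an edge -/
lemma cnt_cons (C : Finset (Fin 15)) (A : Multiset (Finset (Fin 15))) (e : Fin 15) :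
    (C ::ₘ A).countP (fun C => e ∈ C) = A.countP (fun C => e ∈ C) + ind C e := by
  rw [Multiset.countP_cons]
  rfl

lemma tight (a b s : Fin 15) (A : Multiset (Finset (Fin 15)))
    (hA : ∀ C ∈ A, Even (ind C a + ind C b + ind C s)) :
    A.countP (fun C => s ∈ C) ≤ A.countP (fun C => a ∈ C) + A.countP (fun C => b ∈ C) ∧
    (A.countP (fun C => s ∈ C) = A.countP (fun C => a ∈ C) + A.countP (fun C => b ∈ C) →
      ∀ C ∈ A, ind C s = ind C a + ind C b) := by
  induction A using Multiset.induction with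
  | empty => simp
  | cons C A ih =>
    obtain ⟨h1, h2⟩ := ih fun D hD => hA D (Multiset.mem_cons_of_mem hD)
    obtain ⟨t, ht⟩ := hA C (Multiset.mem_cons_self C A)
    have hs := ind_le C s
    rw [cnt_cons, cnt_cons, cnt_cons]
    refine ⟨by omega, fun h => ?_⟩
    intro D hD
    rcases Multiset.mem_cons.1 hD with h3 | h3
    · rw [h3]
      omega
    · exact h2 (by omega) D h3

def B (b : Bool) : ℕ := if b then 1 else 0

lemma five : ∀ o t : Fin 5 → Bool, (∀ i, B (o i) + B (o (i + 4)) ≤ 1) →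
    (∀ i, B (o i) + B (o (i + 4)) = B (t i) + B (t (i + 3))) →
    (∑ i, B (o i)) % 2 = 0 := by
  decide +kernel

lemma no_cover (c : ℕ) (hc : Odd c) : ¬ FaithfulCover petersen (fun e => c * pw e) := by
  rintro ⟨A, hA1, hA2'⟩
  have hA2 : ∀ e, A.countP (fun C => e ∈ C) = c * pw e := hA2'
  have w1 : ∀ i : Fin 5, pw (oE i) = 1 := by decide
  have w2 : ∀ i : Fin 5, pw (sE i) = 2 := by decide
  have w3 : ∀ i : Fin 5, pw (tE i) = 1 := by decide
  have t1 : ∀ i : Fin 5, ∀ C ∈ A, ind C (sE i) = ind C (oE i) + ind C (oE (i + 4)) := by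
    intro i
    refine (tight (oE i) (oE (i + 4)) (sE i) A fun C hC => ?_).2 ?_
    · rw [← deg_outer]
      exact (hA1 C hC).isEven _
    · rw [hA2, hA2, hA2, w1, w1, w2]
      ring
  have t2 : ∀ i : Fin 5, ∀ C ∈ A, ind C (sE i) = ind C (tE i) + ind C (tE (i + 3)) := by
    intro i
    refine (tight (tE i) (tE (i + 3)) (sE i) A fun C hC => ?_).2 ?_
    · rw [← deg_inner]
      exact (hA1 C hC).isEven _
    · rw [hA2, hA2, hA2, w3, w3, w2]
      ring
  have hev : ∀ C ∈ A, (∑ i : Fin 5, ind C (oE i)) % 2 = 0 := by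
    intro C hC
    have h := five (fun i => decide (oE i ∈ C)) (fun i => decide (tE i ∈ C))
    have e1 : ∀ e, B (decide (e ∈ C)) = ind C e := by
      intro e
      unfold B ind
      by_cases h : e ∈ C <;> simp [h]
    simp only [e1] at h
    refine h (fun i => ?_) (fun i => ?_)
    · rw [← t1 i C hC]
      exact ind_le C _
    · rw [← t1 i C hC, t2 i C hC]
  have hsum : ∀ A' : Multiset (Finset (Fin 15)),
      (∀ C ∈ A', (∑ i : Fin 5, ind C (oE i)) % 2 = 0) →
      (∑ i : Fin 5, A'.countP (fun C => oE i ∈ C)) % 2 = 0 := by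
    intro A'
    induction A' using Multiset.induction with
    | empty => simp
    | cons C A' ih =>
      intro h
      have h1 := ih fun D hD => h D (Multiset.mem_cons_of_mem hD)
      have h2 := h C (Multiset.mem_cons_self C A')
      simp only [cnt_cons]
      rw [Finset.sum_add_distrib]
      omega
  have h := hsum A hev
  have h1 : ∑ i : Fin 5, A.countP (fun C => oE i ∈ C) = 5 * c := by
    simp only [hA2, w1, mul_one, Finset.sum_const, Finset.card_univ, Fintype.card_fin,
      smul_eq_mul]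
  rw [h1] at h
  obtain ⟨m, hm⟩ := hc
  omega

/-- The Petersen graph has property `𝒫_k` for no odd `k`. -/
theorem not_hasP_petersen (k : ℕ) (hk : Odd k) : ¬ HasP k petersen := fun h =>
  no_cover k hk (h _ (fun _ => Dvd.intro _ rfl) (eulerian_pet k) (admissible_pet k))

end Pool.Agent.J6H51.PK
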