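import Pool.Agent.J6H51.PK.Defs
import Pool.Agent.H126R2.CDC.Decomp

set_option autoImplicit false
set_option linter.unusedSectionVars false
set_option linter.unusedDecidableInType false

/-!
# Faithful circuit covers and subdivisions

If `G` contains a subdivision of `H` and `(H, w)` has no faithful circuit cover for an admissible
eulerian weight `w`, then the same holds for `G` and the weight that is `w k` on the path of the
edge `k` of `H` and zero elsewhere.
-/

namespace Pool.Agent.J6H51.PK

open Finset
open Pool.Agent.H126R2.CDC (MGraph)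

section basic

variable {V E : Type} [Fintype V] [DecidableEq V] [Fintype E] [DecidableEq E] (G : MGraph V E)

lemma mem_cut_iff {e : E} {a b : V} (h : G.ends e = s(a, b)) (X : Finset V) :
    e ∈ cut G X ↔ ¬ (a ∈ X ↔ b ∈ X) := by
  unfold cut
  rw [mem_filter, h]
  constructor
  · rintro ⟨-, a', b', ha, hb, hab⟩ hiff
    rw [Sym2.eq_iff] at hab
    rcases hab with ⟨h1, h2⟩ | ⟨h1, h2⟩
    · exact hb (h2 ▸ hiff.1 (h1 ▸ ha))
    · exact hb (h1 ▸ hiff.2 (h2 ▸ ha))
  · intro hn
    refine ⟨mem_univ _, ?_⟩
    by_cases ha : a ∈ X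
    · have hb : b ∉ X := fun hb => hn ⟨fun _ => hb, fun _ => ha⟩
      exact ⟨a, b, ha, hb, rfl⟩
    · have hb : b ∈ X := by
        by_contra hb
        exact hn ⟨fun h => absurd h ha, fun h => absurd h hb⟩
      exact ⟨b, a, hb, ha, Sym2.eq_swap⟩

lemma ep_eq' {e : E} {a b : V} (h : G.ends e = s(a, b)) (v : V) :
    G.ep e v = (if a = v then 1 else 0) + (if b = v then 1 else 0) := by
  unfold MGraph.ep
  rw [h]
  by_cases h1 : a = v
  · subst h1
    by_cases h2 : b = a
    · subst h2
      simp
    · have h3 : s(a, b) ≠ s(a, a) := by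
        intro h4
        rw [Sym2.eq_iff] at h4
        rcases h4 with ⟨-, h4⟩ | ⟨-, h4⟩ <;> exact h2 h4
      simp [h2]
  · by_cases h2 : b = v
    · subst h2
      have h3 : s(a, b) ≠ s(b, b) := by
        intro h4
        rw [Sym2.eq_iff] at h4
        rcases h4 with ⟨h4, -⟩ | ⟨h4, -⟩ <;> exact h1 h4
      simp [h1]
    · have h3 : s(a, b) ≠ s(v, v) := by
        intro h4
        rw [Sym2.eq_iff] at h4
        rcases h4 with ⟨h4, -⟩ | ⟨h4, -⟩ <;> exact h1 h4
      have h4 : v ∉ s(a, b) := by
        rw [Sym2.mem_iff]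
        rintro (h5 | h5)
        · exact h1 h5.symm
        · exact h2 h5.symm
      simp [h1, h2, h4]

lemma admissible_iff (w : E → ℕ) :
    Admissible G w ↔ ∀ X : Finset V, ∀ e ∈ cut G X, 2 * w e ≤ ∑ f ∈ cut G X, w f := by
  unfold Admissible
  refine forall_congr' fun X => forall_congr' fun e => forall_congr' fun he => ?_
  rw [← Finset.add_sum_erase _ _ he]
  omega

/-- A finite family of even edge sets can be replaced by a family of circuits covering every edge
equally often. -/
lemma cover_of_even (F : Multiset (Finset E)) (hF : ∀ D ∈ F, G.IsEven D) :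
    ∃ F' : Multiset (Finset E), (∀ C ∈ F', G.IsCircuit C) ∧
      ∀ e, F'.countP (fun C => e ∈ C) = F.countP (fun C => e ∈ C) := by
  induction F using Multiset.induction with
  | empty => exact ⟨0, by simp, by simp⟩
  | cons D F ih =>
    obtain ⟨F1, h1, h2⟩ := ih fun D' hD' => hF D' (Multiset.mem_cons_of_mem hD')
    obtain ⟨F2, h3, h4⟩ := G.decompose _ D rfl (hF D (Multiset.mem_cons_self D F))
    refine ⟨F2 + F1, ?_, ?_⟩
    · intro C hC
      rcases Multiset.mem_add.1 hC with h | h
      · exact h3 C h
      · exact h1 C h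
    · intro e
      rw [Multiset.countP_add, h2, h4, Multiset.countP_cons]
      omega

end basic

/-- the number of changes along a sequence is even iff the ends agree -/
lemma changes (s : ℕ → Prop) [DecidablePred s] (n : ℕ) :
    (∑ i ∈ range n, if ¬ (s i ↔ s (i + 1)) then 1 else 0) % 2 = if ¬ (s 0 ↔ s n) then 1 else 0 := by
  induction n with
  | zero => simp
  | succ n ih =>
    rw [Finset.sum_range_succ, Nat.add_mod, ih]
    by_cases h0 : s 0 <;> by_cases h1 : s n <;> by_cases h2 : s (n + 1) <;> simp [h0, h1, h2]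

section transfer

variable {V E U F : Type} [Fintype V] [DecidableEq V] [Fintype E] [DecidableEq E]
  [Fintype U] [DecidableEq U] [Fintype F] [DecidableEq F]
  (G : MGraph V E) (H : MGraph U F)
  (β : U → V) (len : F → ℕ) (x : F → ℕ → V) (p : F → ℕ → E)

/-- the weight of `G` induced by a weight of `H` -/
def lift (w : F → ℕ) (e : E) : ℕ :=
  ∑ k : F, ∑ i ∈ range (len k), if p k i = e then w k else 0

lemma lift_eq (h6 : ∀ k i k' i', i < len k → i' < len k' → p k i = p k' i' → k = k' ∧ i = i')
    (w : F → ℕ) {k : F} {i : ℕ} (hi : i < len k) : lift len p w (p k i) = w k := by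
  unfold lift
  rw [Finset.sum_eq_single k, Finset.sum_eq_single i]
  · simp
  · intro j hj hne
    rw [if_neg]
    intro h
    exact hne (h6 k j k i (mem_range.1 hj) hi h).2
  · intro h
    exact absurd (mem_range.2 hi) h
  · intro k' _ hne
    apply Finset.sum_eq_zero
    intro j hj
    rw [if_neg]
    intro h
    exact hne (h6 k' j k i (mem_range.1 hj) hi h).1
  · intro h
    exact absurd (mem_univ _) h

lemma lift_cases (w : F → ℕ) (e : E) : lift len p w e = 0 ∨ ∃ k i, i < len k ∧ p k i = e := by
  by_cases h : ∃ k i, i < len k ∧ p k i = e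
  · exact Or.inr h
  · left
    push Not at h
    unfold lift
    apply Finset.sum_eq_zero
    intro k _
    apply Finset.sum_eq_zero
    intro i hi
    rw [if_neg (h k i (mem_range.1 hi))]

/-- the number of edges of the path of `k` in the cut of `X` -/
def num (X : Finset V) (k : F) : ℕ :=
  ∑ i ∈ range (len k), if ¬ (x k i ∈ X ↔ x k (i + 1) ∈ X) then 1 else 0

lemma sum_cut (h3 : ∀ k i, i < len k → G.ends (p k i) = s(x k i, x k (i + 1)))
    (w : F → ℕ) (X : Finset V) :
    ∑ e ∈ cut G X, lift len p w e = ∑ k : F, w k * num len x X k := by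
  unfold lift
  rw [Finset.sum_comm]
  apply Finset.sum_congr rfl
  intro k _
  rw [Finset.sum_comm]
  unfold num
  rw [Finset.mul_sum]
  apply Finset.sum_congr rfl
  intro i hi
  rw [Finset.sum_ite_eq, mul_ite, mul_one, mul_zero]
  have h := mem_cut_iff G (h3 k i (mem_range.1 hi)) X
  by_cases h1 : p k i ∈ cut G X
  · rw [if_pos h1, if_pos (h.1 h1)]
  · rw [if_neg h1, if_neg (fun h2 => h1 (h.2 h2))]

lemma num_mod (h2 : ∀ k, 0 < len k ∧ ∃ a b, H.ends k = s(a, b) ∧ x k 0 = β a ∧ x k (len k) = β b)
    (X : Finset V) (k : F) :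
    num len x X k % 2 = if k ∈ cut H (univ.filter fun u => β u ∈ X) then 1 else 0 := by
  unfold num
  rw [changes (fun i => x k i ∈ X) (len k)]
  obtain ⟨-, a, b, hab, ha, hb⟩ := h2 k
  have h := mem_cut_iff H hab (univ.filter fun u => β u ∈ X)
  rw [ha, hb]
  simp only [mem_filter, mem_univ, true_and] at h
  by_cases h1 : k ∈ cut H (univ.filter fun u => β u ∈ X)
  · rw [if_pos h1, if_pos (h.1 h1)]
  · rw [if_neg h1, if_neg (fun h2 => h1 (h.2 h2))]

lemma eulerian_lift
    (h2 : ∀ k, 0 < len k ∧ ∃ a b, H.ends k = s(a, b) ∧ x k 0 = β a ∧ x k (len k) = β b)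
    (h3 : ∀ k i, i < len k → G.ends (p k i) = s(x k i, x k (i + 1)))
    (w : F → ℕ) (hw : EulerianWeight H w) : EulerianWeight G (lift len p w) := by
  intro X
  rw [sum_cut G len x p h3 w X]
  have h := hw (univ.filter fun u => β u ∈ X)
  rw [Nat.even_iff] at h ⊢
  rw [← h, Finset.sum_nat_mod, Finset.sum_nat_mod (cut H _)]
  congr 1
  rw [← Finset.sum_filter_add_sum_filter_not univ (fun k => k ∈ cut H (univ.filter fun u => β u ∈ X))]
  have e1 : ∑ k ∈ univ.filter (fun k => k ∉ cut H (univ.filter fun u => β u ∈ X)),
      w k * num len x X k % 2 = 0 := by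
    apply Finset.sum_eq_zero
    intro k hk
    rw [mem_filter] at hk
    have := num_mod H β len x h2 X k
    rw [if_neg hk.2] at this
    rw [Nat.mul_mod, this, mul_zero, Nat.zero_mod]
  rw [e1, add_zero]
  have e2 : univ.filter (fun k => k ∈ cut H (univ.filter fun u => β u ∈ X)) =
      cut H (univ.filter fun u => β u ∈ X) := by
    ext k
    simp
  rw [e2]
  apply Finset.sum_congr rfl
  intro k hk
  have := num_mod H β len x h2 X k
  rw [if_pos hk] at this
  rw [Nat.mul_mod, this, mul_one, Nat.mod_mod]

lemma admissible_lift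
    (h2 : ∀ k, 0 < len k ∧ ∃ a b, H.ends k = s(a, b) ∧ x k 0 = β a ∧ x k (len k) = β b)
    (h3 : ∀ k i, i < len k → G.ends (p k i) = s(x k i, x k (i + 1)))
    (h6 : ∀ k i k' i', i < len k → i' < len k' → p k i = p k' i' → k = k' ∧ i = i')
    (w : F → ℕ) (hw : Admissible H w) : Admissible G (lift len p w) := by
  rw [admissible_iff] at hw ⊢
  intro X e he
  rcases lift_cases len p w e with h | ⟨k, i, hi, rfl⟩
  · rw [h]
    exact Nat.zero_le _
  · rw [lift_eq len p h6 w hi, sum_cut G len x p h3 w X]
    have hmod := num_mod H β len x h2 X k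
    by_cases hk : k ∈ cut H (univ.filter fun u => β u ∈ X)
    · refine le_trans (hw _ k hk) ?_
      calc ∑ f ∈ cut H (univ.filter fun u => β u ∈ X), w f
          ≤ ∑ f ∈ cut H (univ.filter fun u => β u ∈ X), w f * num len x X f := by
            apply Finset.sum_le_sum
            intro f hf
            have := num_mod H β len x h2 X f
            rw [if_pos hf] at this
            have h1 : 1 ≤ num len x X f := by omega
            calc w f = w f * 1 := (mul_one _).symm
              _ ≤ _ := Nat.mul_le_mul_left _ h1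
        _ ≤ ∑ f, w f * num len x X f :=
            Finset.sum_le_sum_of_subset (Finset.subset_univ _)
    · rw [if_neg hk] at hmod
      have h1 : 1 ≤ num len x X k := by
        unfold num
        refine le_trans ?_ (Finset.single_le_sum (f := fun i =>
          if ¬ (x k i ∈ X ↔ x k (i + 1) ∈ X) then 1 else 0) (fun _ _ => Nat.zero_le _)
          (mem_range.2 hi))
        rw [if_pos ((mem_cut_iff G (h3 k i hi) X).1 he)]
      have h4 : 2 ≤ num len x X k := by omega
      calc 2 * w k = w k * 2 := mul_comm _ _
        _ ≤ w k * num len x X k := Nat.mul_le_mul_left _ h4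
        _ ≤ ∑ f, w f * num len x X f :=
            Finset.single_le_sum (f := fun f => w f * num len x X f)
              (fun _ _ => Nat.zero_le _) (mem_univ k)

/-- the degree in an edge set contained in the union of the paths -/
lemma deg_paths (h3 : ∀ k i, i < len k → G.ends (p k i) = s(x k i, x k (i + 1)))
    (h6 : ∀ k i k' i', i < len k → i' < len k' → p k i = p k' i' → k = k' ∧ i = i')
    (C : Finset E) (hC : ∀ e ∈ C, ∃ k i, i < len k ∧ p k i = e) (v : V) :
    G.deg C v = ∑ k : F, ∑ i ∈ range (len k), if p k i ∈ C then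
      ((if x k i = v then 1 else 0) + (if x k (i + 1) = v then 1 else 0)) else 0 := by
  rw [MGraph.deg_eq_sum]
  have e1 : ∀ e ∈ C, G.ep e v = ∑ k : F, ∑ i ∈ range (len k),
      if p k i = e then G.ep e v else 0 := by
    intro e he
    obtain ⟨k, i, hi, rfl⟩ := hC e he
    rw [Finset.sum_eq_single k, Finset.sum_eq_single i]
    · simp
    · intro j hj hne
      rw [if_neg]
      intro h
      exact hne (h6 k j k i (mem_range.1 hj) hi h).2
    · intro h
      exact absurd (mem_range.2 hi) h
    · intro k' _ hne
      apply Finset.sum_eq_zero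
      intro j hj
      rw [if_neg]
      intro h
      exact hne (h6 k' j k i (mem_range.1 hj) hi h).1
    · intro h
      exact absurd (mem_univ _) h
  rw [Finset.sum_congr rfl e1, Finset.sum_comm]
  apply Finset.sum_congr rfl
  intro k _
  rw [Finset.sum_comm]
  apply Finset.sum_congr rfl
  intro i hi
  rw [Finset.sum_ite_eq, ep_eq' G (h3 k i (mem_range.1 hi)) v]

lemma whole_path
    (h2 : ∀ k, 0 < len k ∧ ∃ a b, H.ends k = s(a, b) ∧ x k 0 = β a ∧ x k (len k) = β b)
    (h3 : ∀ k i, i < len k → G.ends (p k i) = s(x k i, x k (i + 1)))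
    (h4 : ∀ k i, 0 < i → i < len k → ∀ u, x k i ≠ β u)
    (h5 : ∀ k i k' i', 0 < i → i < len k → 0 < i' → i' < len k' → x k i = x k' i' →
      k = k' ∧ i = i')
    (h6 : ∀ k i k' i', i < len k → i' < len k' → p k i = p k' i' → k = k' ∧ i = i')
    (C : Finset E) (hC : ∀ e ∈ C, ∃ k i, i < len k ∧ p k i = e) (hev : G.IsEven C)
    (k : F) : ∀ i, i < len k → (p k i ∈ C ↔ p k 0 ∈ C) := by
  intro i
  induction i with
  | zero => exact fun _ => Iff.rfl
  | succ i ih =>
    intro hi
    rw [← ih (by omega)]
    have hd := hev (x k (i + 1))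
    rw [deg_paths G len x p h3 h6 C hC] at hd
    have e1 : (∑ k' : F, ∑ i' ∈ range (len k'), if p k' i' ∈ C then
        ((if x k' i' = x k (i + 1) then 1 else 0) +
          (if x k' (i' + 1) = x k (i + 1) then 1 else 0)) else 0) =
        (if p k (i + 1) ∈ C then 1 else 0) + (if p k i ∈ C then 1 else 0) := by
      have e2 : ∀ k' : F, ∀ i' ∈ range (len k'), (if p k' i' ∈ C then
          ((if x k' i' = x k (i + 1) then 1 else 0) +
            (if x k' (i' + 1) = x k (i + 1) then 1 else 0)) else 0) =
          (if k' = k ∧ i' = i + 1 then (if p k (i + 1) ∈ C then 1 else 0) else 0) +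
          (if k' = k ∧ i' = i then (if p k i ∈ C then 1 else 0) else 0) := by
        intro k' i' hi'
        rw [mem_range] at hi'
        have f1 : x k' i' = x k (i + 1) ↔ k' = k ∧ i' = i + 1 := by
          constructor
          · intro h
            rcases Nat.eq_zero_or_pos i' with h0 | h0
            · exfalso
              subst h0
              obtain ⟨-, a, b, hab, ha, hb⟩ := h2 k'
              rw [ha] at h
              exact h4 k (i + 1) (Nat.succ_pos i) hi a h.symm
            · exact h5 k' i' k (i + 1) h0 hi' (Nat.succ_pos i) hi h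
          · rintro ⟨rfl, rfl⟩
            rfl
        have f2 : x k' (i' + 1) = x k (i + 1) ↔ k' = k ∧ i' = i := by
          constructor
          · intro h
            rcases Nat.lt_or_ge (i' + 1) (len k') with h0 | h0
            · have := h5 k' (i' + 1) k (i + 1) (Nat.succ_pos _) h0 (Nat.succ_pos i) hi h
              exact ⟨this.1, by omega⟩
            · exfalso
              have h7 : i' + 1 = len k' := by omega
              obtain ⟨-, a, b, hab, ha, hb⟩ := h2 k'
              rw [h7, hb] at h
              exact h4 k (i + 1) (Nat.succ_pos i) hi b h.symm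
          · rintro ⟨rfl, rfl⟩
            rfl
        simp only [f1, f2]
        by_cases g1 : k' = k
        · subst g1
          by_cases g2 : i' = i + 1
          · subst g2
            simp
          · by_cases g3 : i' = i
            · subst g3
              simp
            · simp [g2, g3]
        · simp [g1]
      rw [Finset.sum_congr rfl fun k' _ => Finset.sum_congr rfl (e2 k')]
      simp only [Finset.sum_add_distrib]
      congr 1
      · rw [Finset.sum_eq_single k, Finset.sum_eq_single (i + 1)]
        · simp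
        · intro j _ hj
          rw [if_neg (fun h => hj h.2)]
        · intro h
          exact absurd (mem_range.2 hi) h
        · intro k' _ hk'
          exact Finset.sum_eq_zero fun j _ => if_neg (fun h => hk' h.1)
        · intro h
          exact absurd (mem_univ _) h
      · rw [Finset.sum_eq_single k, Finset.sum_eq_single i]
        · simp
        · intro j _ hj
          rw [if_neg (fun h => hj h.2)]
        · intro h
          exact absurd (mem_range.2 (by omega)) h
        · intro k' _ hk'
          exact Finset.sum_eq_zero fun j _ => if_neg (fun h => hk' h.1)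
        · intro h
          exact absurd (mem_univ _) h
    rw [e1] at hd
    by_cases g1 : p k (i + 1) ∈ C <;> by_cases g2 : p k i ∈ C
    · simp [g1, g2]
    · simp [g1, g2] at hd
    · simp [g1, g2] at hd
    · simp [g1, g2]

lemma isEven_down
    (h1 : Function.Injective β)
    (h2 : ∀ k, 0 < len k ∧ ∃ a b, H.ends k = s(a, b) ∧ x k 0 = β a ∧ x k (len k) = β b)
    (h3 : ∀ k i, i < len k → G.ends (p k i) = s(x k i, x k (i + 1)))
    (h4 : ∀ k i, 0 < i → i < len k → ∀ u, x k i ≠ β u)
    (h5 : ∀ k i k' i', 0 < i → i < len k → 0 < i' → i' < len k' → x k i = x k' i' →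
      k = k' ∧ i = i')
    (h6 : ∀ k i k' i', i < len k → i' < len k' → p k i = p k' i' → k = k' ∧ i = i')
    (C : Finset E) (hC : ∀ e ∈ C, ∃ k i, i < len k ∧ p k i = e) (hev : G.IsEven C) :
    H.IsEven (univ.filter fun k => p k 0 ∈ C) := by
  intro u
  have hd := hev (β u)
  rw [deg_paths G len x p h3 h6 C hC] at hd
  rw [MGraph.deg_eq_sum, Finset.sum_filter]
  refine (congrArg Even ?_).mp hd
  apply Finset.sum_congr rfl
  intro k _
  have hw := whole_path G H β len x p h2 h3 h4 h5 h6 C hC hev k
  by_cases hk : p k 0 ∈ C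
  · rw [if_pos hk]
    have e1 : ∀ i ∈ range (len k), (if p k i ∈ C then
        ((if x k i = β u then 1 else 0) + (if x k (i + 1) = β u then 1 else 0)) else 0) =
        (if x k i = β u then 1 else 0) + (if x k (i + 1) = β u then 1 else 0) := by
      intro i hi
      rw [if_pos ((hw i (mem_range.1 hi)).2 hk)]
    rw [Finset.sum_congr rfl e1, Finset.sum_add_distrib]
    obtain ⟨hlen, a, b, hab, ha, hb⟩ := h2 k
    have e2 : (∑ i ∈ range (len k), if x k i = β u then 1 else 0) = if a = u then 1 else 0 := by
      rw [Finset.sum_eq_single 0]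
      · rw [ha]
        simp only [h1.eq_iff]
      · intro j hj hj0
        rw [if_neg (h4 k j (Nat.pos_of_ne_zero hj0) (mem_range.1 hj) u)]
      · intro h
        exact absurd (mem_range.2 hlen) h
    have e3 : (∑ i ∈ range (len k), if x k (i + 1) = β u then 1 else 0) =
        if b = u then 1 else 0 := by
      rw [Finset.sum_eq_single (len k - 1)]
      · rw [Nat.sub_add_cancel hlen, hb]
        simp only [h1.eq_iff]
      · intro j hj hj0
        rw [mem_range] at hj
        rw [if_neg (h4 k (j + 1) (Nat.succ_pos j) (by omega) u)]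
      · intro h
        exact absurd (mem_range.2 (by omega)) h
    rw [e2, e3, ep_eq' H hab u]
  · rw [if_neg hk]
    apply Finset.sum_eq_zero
    intro i hi
    rw [if_neg (fun h => hk ((hw i (mem_range.1 hi)).1 h))]

lemma cover_down
    (h1 : Function.Injective β)
    (h2 : ∀ k, 0 < len k ∧ ∃ a b, H.ends k = s(a, b) ∧ x k 0 = β a ∧ x k (len k) = β b)
    (h3 : ∀ k i, i < len k → G.ends (p k i) = s(x k i, x k (i + 1)))
    (h4 : ∀ k i, 0 < i → i < len k → ∀ u, x k i ≠ β u)
    (h5 : ∀ k i k' i', 0 < i → i < len k → 0 < i' → i' < len k' → x k i = x k' i' →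
      k = k' ∧ i = i')
    (h6 : ∀ k i k' i', i < len k → i' < len k' → p k i = p k' i' → k = k' ∧ i = i')
    (w : F → ℕ) (hc : FaithfulCover G (lift len p w)) : FaithfulCover H w := by
  obtain ⟨A, hA1, hA2⟩ := hc
  have hsub : ∀ C ∈ A, ∀ e ∈ C, ∃ k i, i < len k ∧ p k i = e := by
    intro C hC e he
    rcases lift_cases len p w e with h | h
    · exfalso
      have h7 := hA2 e
      rw [h, Multiset.countP_eq_zero] at h7
      exact h7 C hC he
    · exact h
  obtain ⟨B, hB1, hB2⟩ := cover_of_even H
    (A.map fun C => univ.filter fun k => p k 0 ∈ C) (by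
      intro D hD
      obtain ⟨C, hC, rfl⟩ := Multiset.mem_map.1 hD
      exact isEven_down G H β len x p h1 h2 h3 h4 h5 h6 C (hsub C hC) (hA1 C hC).isEven)
  refine ⟨B, hB1, fun k => ?_⟩
  rw [hB2, Multiset.countP_map, ← Multiset.countP_eq_card_filter]
  have h7 := hA2 (p k 0)
  rw [lift_eq len p h6 w (h2 k).1] at h7
  rw [← h7]
  apply Multiset.countP_congr rfl
  intro C _
  simp

end transfer

variable {V E U F : Type} [Fintype V] [DecidableEq V] [Fintype E] [DecidableEq E]
  [Fintype U] [DecidableEq U] [Fintype F] [DecidableEq F]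

/-- If `G` contains a subdivision of `H` and `w` is an admissible eulerian weight of `H` without a
faithful circuit cover, then `G` has such a weight, whose nonzero values are values of `w`. -/
theorem transfer {G : MGraph V E} {H : MGraph U F} (h : ContainsSubdivision G H) (w : F → ℕ)
    (he : EulerianWeight H w) (ha : Admissible H w) (hc : ¬ FaithfulCover H w) :
    ∃ w' : E → ℕ, (∀ e, w' e = 0 ∨ ∃ k, w' e = w k) ∧ EulerianWeight G w' ∧ Admissible G w' ∧
      ¬ FaithfulCover G w' := by
  obtain ⟨β, len, x, p, h1, h2, h3, h4, h5, h6⟩ := h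
  refine ⟨lift len p w, fun e => ?_, eulerian_lift G H β len x p h2 h3 w he,
    admissible_lift G H β len x p h2 h3 h6 w ha,
    fun hG => hc (cover_down G H β len x p h1 h2 h3 h4 h5 h6 w hG)⟩
  rcases lift_cases len p w e with h | ⟨k, i, hi, rfl⟩
  · exact Or.inl h
  · exact Or.inr ⟨k, lift_eq len p h6 w hi⟩

/-- The class of the graphs with property `𝒫_k` is closed under topological containment. -/
theorem hasP_of_subdivision {G : MGraph V E} {H : MGraph U F} (h : ContainsSubdivision G H)
    (k : ℕ) (hG : HasP k G) : HasP k H := by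
  intro w hk he ha
  by_contra hc
  obtain ⟨w', h1, h2, h3, h4⟩ := transfer h w he ha hc
  refine h4 (hG w' (fun e => ?_) h2 h3)
  rcases h1 e with h | ⟨j, h⟩
  · rw [h]
    exact dvd_zero k
  · rw [h]
    exact hk j

end Pool.Agent.J6H51.PK
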